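import Pool.Agent.Run7.h658.EZS.Basic
import Pool.Agent.Run7.h494.Four.Final

/-!
# The smallest non-multiplicative graph is `K₄`

Every graph with at most three vertices is multiplicative, and a graph with four vertices is
multiplicative if and only if it is not complete.

The proof that `K₄` is not multiplicative is the theorem `pair_four` of `Run7/h494/Four` (products with a
colouring with four colours of graphs of arbitrarily large chromatic number); the multiplicativity of
`K₃` is the theorem of El-Zahar and Sauer, with a new short proof.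
-/

set_option autoImplicit false

open SimpleGraph

namespace Pool.Agent.Run7.h658.Kept.SmallestNonMultiplicative

/-- The direct product `G × H`: `(x, y)` and `(x', y')` are adjacent if and only if `x x'` is an edge of
`G` and `y y'` is an edge of `H`. -/
def directProduct {V W : Type} (G : SimpleGraph V) (H : SimpleGraph W) : SimpleGraph (V × W) where
  Adj p q := G.Adj p.1 q.1 ∧ H.Adj p.2 q.2
  symm := ⟨fun _ _ h => ⟨h.1.symm, h.2.symm⟩⟩
  loopless := ⟨fun p h => G.loopless.irrefl p.1 h.1⟩

/-- `M` is multiplicative: for all finite graphs `G`, `H`, if there is a homomorphism `G × H → M`, then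
there is a homomorphism `G → M` or a homomorphism `H → M`. -/
def IsMultiplicative {U : Type} (M : SimpleGraph U) : Prop :=
  ∀ (V W : Type) [Finite V] [Finite W] (G : SimpleGraph V) (H : SimpleGraph W),
    Nonempty (directProduct G H →g M) → Nonempty (G →g M) ∨ Nonempty (H →g M)

section

variable {U V W : Type} {G : SimpleGraph V} {H : SimpleGraph W} {M : SimpleGraph U}

/-- a parity argument for two colours -/
theorem walk_two {ψ : V → W → Fin 2} (hψ : ∀ x x' y y', G.Adj x x' → H.Adj y y' → ψ x y ≠ ψ x' y')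
    {u v : V} (p : G.Walk u v) : ∀ y y', H.Adj y y' → (Even p.length → ψ v y = ψ u y) ∧
      (Odd p.length → ψ v y' ≠ ψ u y) := by
  induction p with
  | nil => intro y y' _; simp
  | cons h p ih =>
    intro y y' hy
    obtain ⟨h1, h2⟩ := ih y' y hy.symm
    have h3 := hψ _ _ _ _ h hy
    rw [Walk.length_cons]
    constructor
    · intro he
      have h4 := h2 (by rw [← Nat.not_even_iff_odd]; intro h5; exact (Nat.even_add_one.mp he) h5)
      clear h1 h2 ih
      generalize ψ _ y = a at *
      omega
    · intro ho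
      have h4 := h1 (by
        rw [← Nat.not_odd_iff_even]; intro h5
        exact (Nat.not_even_iff_odd.mpr ho) (Nat.even_add_one.mpr (Nat.not_even_iff_odd.mpr h5)))
      rw [h4]
      exact h3.symm

theorem two_of_product {ψ : V → W → Fin 2}
    (hψ : ∀ x x' y y', G.Adj x x' → H.Adj y y' → ψ x y ≠ ψ x' y') : G.Colorable 2 ∨ H.Colorable 2 := by
  by_cases bG : G.Colorable 2
  · exact Or.inl bG
  right
  rw [two_colorable_iff_forall_loop_even] at bG
  push Not at bG
  obtain ⟨u, p, hp⟩ := bG
  rw [Nat.not_even_iff_odd] at hp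
  exact ⟨Coloring.mk (fun y => ψ u y) (fun {y y'} hy => ((walk_two hψ p y y' hy).2 hp).symm)⟩

/-- graphs which have an edge and a colouring with two colours -/
theorem mult_of_two (hM : M.Colorable 2) {a b : U} (hab : M.Adj a b) : IsMultiplicative M := by
  intro V W _ _ G H ⟨f⟩
  obtain ⟨c⟩ := hM
  have back : ∀ {X : Type} {K : SimpleGraph X}, K.Colorable 2 → Nonempty (K →g M) := by
    intro X K ⟨d⟩
    refine ⟨⟨fun x => if d x = 0 then a else b, fun {x x'} hx => ?_⟩⟩
    have := d.valid hx
    have e1 : ∀ i : Fin 2, i = 0 ∨ i = 1 := by decide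
    rcases e1 (d x) with h1 | h1 <;> rcases e1 (d x') with h2 | h2
    · exact absurd (h1.trans h2.symm) this
    · simp [h1, h2, hab]
    · simp [h1, h2, hab.symm]
    · exact absurd (h1.trans h2.symm) this
  rcases two_of_product (G := G) (H := H) (ψ := fun x y => c (f (x, y)))
    (fun x x' y y' hx hy => c.valid (f.map_adj (v := (x, y)) (w := (x', y')) ⟨hx, hy⟩)) with h | h
  · exact Or.inl (back h)
  · exact Or.inr (back h)

/-- graphs which have a triangle and a colouring with three colours -/
theorem mult_of_three (hM : M.Colorable 3) {a b c : U} (hab : M.Adj a b) (hac : M.Adj a c)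
    (hbc : M.Adj b c) : IsMultiplicative M := by
  intro V W _ _ G H ⟨f⟩
  obtain ⟨g⟩ := hM
  have back : ∀ {X : Type} {K : SimpleGraph X}, K.Colorable 3 → Nonempty (K →g M) := by
    intro X K ⟨d⟩
    refine ⟨⟨fun x => ![a, b, c] (d x), fun {x x'} hx => ?_⟩⟩
    have := d.valid hx
    have e1 : ∀ i : Fin 3, i = 0 ∨ i = 1 ∨ i = 2 := by decide
    rcases e1 (d x) with h1 | h1 | h1 <;> rcases e1 (d x') with h2 | h2 | h2 <;>
      first
        | exact absurd (h1.trans h2.symm) this
        | (rw [h1, h2]; simp [hab, hac, hbc, hab.symm, hac.symm, hbc.symm])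
  rcases Run7.h658.EZS.el_zahar_sauer (G := G) (H := H) (fun x y => g (f (x, y)))
    (fun x x' y y' hx hy => g.valid (f.map_adj (v := (x, y)) (w := (x', y')) ⟨hx, hy⟩)) with h | h
  · exact Or.inl (back h)
  · exact Or.inr (back h)

/-- graphs without edges -/
theorem mult_of_empty (hM : ∀ a b, ¬ M.Adj a b) : IsMultiplicative M := by
  intro V W _ _ G H ⟨f⟩
  by_cases hG : ∃ x x', G.Adj x x'
  · obtain ⟨x, x', hx⟩ := hG
    right
    have hne : ∀ y y', ¬ H.Adj y y' := fun y y' hy =>
      hM _ _ (f.map_adj (v := (x, y)) (w := (x', y')) ⟨hx, hy⟩)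
    exact ⟨⟨fun y => f (x, y), fun {y y'} hy => absurd hy (hne y y')⟩⟩
  · push Not at hG
    by_cases hW : Nonempty W
    · obtain ⟨y⟩ := hW
      exact Or.inl ⟨⟨fun x => f (x, y), fun {x x'} hx => absurd hx (hG x x')⟩⟩
    · right
      exact ⟨⟨fun y => absurd ⟨y⟩ hW, fun {y y'} _ => absurd ⟨y⟩ hW⟩⟩

set_option synthInstance.maxSize 2000 in
/-- a triangle-free graph with the vertices `0, 1, 2, 3` -/
theorem bits : ∀ b01 b02 b03 b12 b13 b23 : Bool,
    ¬ (b01 = true ∧ b02 = true ∧ b12 = true) → ¬ (b01 = true ∧ b03 = true ∧ b13 = true) →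
    ¬ (b02 = true ∧ b03 = true ∧ b23 = true) → ¬ (b12 = true ∧ b13 = true ∧ b23 = true) →
    ∃ f0 f1 f2 f3 : Fin 2, (b01 = true → f0 ≠ f1) ∧ (b02 = true → f0 ≠ f2) ∧
      (b03 = true → f0 ≠ f3) ∧ (b12 = true → f1 ≠ f2) ∧ (b13 = true → f1 ≠ f3) ∧
      (b23 = true → f2 ≠ f3) := by
  decide

theorem two_of_fin4 (N : SimpleGraph (Fin 4)) (h : ∀ a b c, N.Adj a b → N.Adj a c → ¬ N.Adj b c) :
    N.Colorable 2 := by
  classical
  obtain ⟨f0, f1, f2, f3, h01, h02, h03, h12, h13, h23⟩ := bits (decide (N.Adj 0 1))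
    (decide (N.Adj 0 2)) (decide (N.Adj 0 3)) (decide (N.Adj 1 2)) (decide (N.Adj 1 3))
    (decide (N.Adj 2 3)) (by simpa using fun h1 h2 => h 0 1 2 h1 h2)
    (by simpa using fun h1 h2 => h 0 1 3 h1 h2) (by simpa using fun h1 h2 => h 0 2 3 h1 h2)
    (by simpa using fun h1 h2 => h 1 2 3 h1 h2)
  simp only [decide_eq_true_eq] at h01 h02 h03 h12 h13 h23
  refine ⟨Coloring.mk ![f0, f1, f2, f3] ?_⟩
  intro v w hvw
  have e1 : ∀ i : Fin 4, i = 0 ∨ i = 1 ∨ i = 2 ∨ i = 3 := by decide
  rcases e1 v with rfl | rfl | rfl | rfl <;> rcases e1 w with rfl | rfl | rfl | rfl <;>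
    first
      | exact absurd hvw (N.loopless.irrefl _)
      | exact h01 hvw | exact h02 hvw | exact h03 hvw | exact h12 hvw | exact h13 hvw | exact h23 hvw
      | exact (h01 hvw.symm).symm | exact (h02 hvw.symm).symm | exact (h03 hvw.symm).symm
      | exact (h12 hvw.symm).symm | exact (h13 hvw.symm).symm | exact (h23 hvw.symm).symm

/-- triangle-free graphs with at most four vertices have a colouring with two colours -/
theorem two_of_small [Fintype U] (hU : Fintype.card U ≤ 4)
    (h : ∀ a b c, M.Adj a b → M.Adj a c → ¬ M.Adj b c) : M.Colorable 2 := by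
  classical
  obtain ⟨e⟩ : Nonempty (U ↪ Fin 4) := by
    rw [Function.Embedding.nonempty_iff_card_le, Fintype.card_fin]; exact hU
  have h1 : (M.map e).Colorable 2 := by
    apply two_of_fin4
    intro a b c hab hac hbc
    rw [SimpleGraph.map_adj] at hab hac hbc
    obtain ⟨x, y, hxy, rfl, rfl⟩ := hab
    obtain ⟨x', z, hxz, hx', rfl⟩ := hac
    obtain ⟨y', z', hyz, hy', hz'⟩ := hbc
    rw [e.injective hx'] at hxz
    rw [e.injective hy', e.injective hz'] at hyz
    exact h _ _ _ hxy hxz hyz
  obtain ⟨c⟩ := h1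
  exact ⟨Coloring.mk (fun u => c (e u)) (fun {u v} huv => c.valid (SimpleGraph.map_adj_apply.mpr huv))⟩

theorem mult_of_small [Fintype U] (hU : Fintype.card U ≤ 4) (h3 : M.Colorable 3) :
    IsMultiplicative M := by
  by_cases hE : ∃ a b, M.Adj a b
  · obtain ⟨a, b, hab⟩ := hE
    by_cases hT : ∃ a b c, M.Adj a b ∧ M.Adj a c ∧ M.Adj b c
    · obtain ⟨a, b, c, h1, h2, h3'⟩ := hT
      exact mult_of_three h3 h1 h2 h3'
    · push Not at hT
      exact mult_of_two (two_of_small hU hT) hab
  · push Not at hE
    exact mult_of_empty hE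

/-- a graph with four vertices which is not complete has a colouring with three colours -/
theorem three_of_ne_top [Fintype U] (hU : Fintype.card U = 4) (hM : M ≠ ⊤) : M.Colorable 3 := by
  classical
  obtain ⟨i, j, hij, hn⟩ : ∃ i j, i ≠ j ∧ ¬ M.Adj i j := by
    by_contra hcon
    push Not at hcon
    apply hM
    ext x y
    rw [top_adj]
    exact ⟨fun h => h.ne, hcon x y⟩
  have hc : Fintype.card {u : U // u ≠ j} = 3 := by
    rw [Fintype.card_subtype_compl, hU]
    simp
  rw [← hc]
  refine (Coloring.mk (α := {u : U // u ≠ j}) (fun u => if h : u = j then ⟨i, hij⟩ else ⟨u, h⟩)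
    ?_).colorable
  intro v w hvw
  by_cases h1 : v = j
  · by_cases h2 : w = j
    · exact absurd (h1.trans h2.symm) hvw.ne
    · rw [dif_pos h1, dif_neg h2]
      intro h3
      have h4 : i = w := congrArg Subtype.val h3
      rw [h1, ← h4] at hvw
      exact hn hvw.symm
  · by_cases h2 : w = j
    · rw [dif_neg h1, dif_pos h2]
      intro h3
      have h4 : v = i := congrArg Subtype.val h3
      rw [h2, h4] at hvw
      exact hn hvw
    · rw [dif_neg h1, dif_neg h2]
      intro h3
      exact hvw.ne (congrArg Subtype.val h3)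

/-- `K₄` is not multiplicative -/
theorem not_mult_top [Fintype U] (hU : Fintype.card U = 4) : ¬ IsMultiplicative (⊤ : SimpleGraph U) := by
  intro h
  obtain ⟨V, W, iV, iW, G, H, h1, h2, h3⟩ := Run7.h494.Four.pair_four 5
  have hK : ∀ {X : Type} {K : SimpleGraph X}, K.Colorable 4 ↔ Nonempty (K →g (⊤ : SimpleGraph U)) := by
    intro X K
    obtain ⟨e⟩ : Nonempty (Fin 4 ≃ U) := by
      rw [← Fintype.card_eq, Fintype.card_fin, hU]
    constructor
    · rintro ⟨c⟩
      exact ⟨⟨fun x => e (c x), fun {x y} hxy => by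
        rw [top_adj]; exact fun h => c.valid hxy (e.injective h)⟩⟩
    · rintro ⟨f⟩
      exact ⟨Coloring.mk (fun x => e.symm (f x)) (fun {x y} hxy h =>
        ((top_adj _ _).mp (f.map_adj hxy)) (e.symm.injective h))⟩
  have h4 : Nonempty (directProduct G H →g (⊤ : SimpleGraph U)) := by
    rw [← hK]
    obtain ⟨c⟩ := h3
    exact ⟨Coloring.mk (fun p => c p) (fun {p q} hpq => c.valid ((Run7.h494.tprod_adj G H p q).mpr hpq))⟩
  rcases h V W G H h4 with h5 | h5
  · have h6 := (hK.mpr h5).chromaticNumber_le
    have h7 := h1.trans h6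
    have h8 : 5 ≤ 4 := by exact_mod_cast h7
    omega
  · have h6 := (hK.mpr h5).chromaticNumber_le
    have h7 := h2.trans h6
    have h8 : 5 ≤ 4 := by exact_mod_cast h7
    omega

end

/-- **The smallest non-multiplicative graph.**  Every finite graph with at most three vertices is
multiplicative, and a graph with four vertices is multiplicative if and only if it is not the complete
graph `K₄`.  So `n₀ = 4`, and `K₄` is the only graph on `n₀` vertices which is not multiplicative. -/
theorem result (U : Type) [Fintype U] (M : SimpleGraph U) :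
    (Fintype.card U ≤ 3 → IsMultiplicative M) ∧
    (Fintype.card U = 4 → (IsMultiplicative M ↔ M ≠ ⊤)) := by
  refine ⟨fun hU => mult_of_small (by omega) ?_, fun hU => ⟨?_, fun hM => ?_⟩⟩
  · exact (M.selfColoring.colorable).mono hU
  · rintro h rfl
    exact not_mult_top hU h
  · exact mult_of_small hU.le (three_of_ne_top hU hM)

end Pool.Agent.Run7.h658.Kept.SmallestNonMultiplicative
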